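import Pool.Agent.Helper42.RD.Goals2
import Pool.Agent.Helper38.RSP.Goals3
import Pool.Agent.Helper40.RS.BEX

/-!
# Project RD (MP_fc6b1e_nt), packet E_BEX: choice of `b` for all primes `p`
-/

namespace Pool.Agent.Helper60.RD

open NumberField Polynomial Module IsDedekindDomain
open Pool.Agent.Helper51.RP
open Pool.Agent.Helper40.RS (bel lies bel_smul gw gw_inj free_gw absNorm_free val_count
  absNorm_one_le)
open Pool.Agent.Helper38.RS (pz S_PSM)
open UniqueFactorizationMonoid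

section div

variable {K : Type} [Field K] [NumberField K] (p : ℕ)

/-- The divisor modulo `p` of an ideal. -/
noncomputable def dv (I : Ideal (𝓞 K)) : Ideal (𝓞 K) →₀ ZMod p :=
  ((normalizedFactors I).map fun P => Finsupp.single P (1 : ZMod p)).sum

theorem dv_mul {I J : Ideal (𝓞 K)} (hI : I ≠ ⊥) (hJ : J ≠ ⊥) :
    dv p (I * J) = dv p I + dv p J := by
  unfold dv
  rw [normalizedFactors_mul (by simpa using hI) (by simpa using hJ), Multiset.map_add,
    Multiset.sum_add]

theorem dv_one : dv p (1 : Ideal (𝓞 K)) = 0 := by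
  unfold dv
  rw [normalizedFactors_one, Multiset.map_zero, Multiset.sum_zero]

theorem dv_prime (v : HeightOneSpectrum (𝓞 K)) :
    dv p v.asIdeal = Finsupp.single v.asIdeal 1 := by
  unfold dv
  rw [normalizedFactors_irreducible v.irreducible]
  simp

theorem dv_apply (I P : Ideal (𝓞 K)) :
    dv p I P = ((normalizedFactors I).count P : ZMod p) := by
  unfold dv
  generalize normalizedFactors I = s
  induction s using Multiset.induction_on with
  | empty => simp
  | cons a s ih =>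
    rw [Multiset.map_cons, Multiset.sum_cons, Finsupp.add_apply, ih, Multiset.count_cons,
      Finsupp.single_apply]
    by_cases h : a = P
    · rw [if_pos h, if_pos h.symm]
      push_cast
      ring
    · rw [if_neg h, if_neg (fun h' => h h'.symm)]
      push_cast
      ring

theorem dv_pow {b : 𝓞 K} (hb : b ≠ 0) (k : ℕ) :
    dv p (Ideal.span {b ^ k}) = k • dv p (Ideal.span {b}) := by
  induction k with
  | zero =>
    rw [pow_zero, Ideal.span_singleton_one, ← Ideal.one_eq_top, dv_one, zero_smul]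
  | succ k ih =>
    rw [pow_succ, ← Ideal.span_singleton_mul_span_singleton,
      dv_mul p (by simpa using pow_ne_zero k hb) (by simpa using hb), ih, succ_nsmul]

/-- The generators. -/
def Gen (𝔫 : Ideal (𝓞 K)) (H : Set (Ideal (𝓞 K))) : Set (Ideal (𝓞 K) →₀ ZMod p) :=
  ((fun P => Finsupp.single P (1 : ZMod p)) '' H) ∪
    {x | ∃ β : 𝓞 K, β ≠ 0 ∧ β - 1 ∈ 𝔫 ∧ x = dv p (Ideal.span {β})}

omit [NumberField K] in
theorem sub_mem_mul {𝔫 : Ideal (𝓞 K)} {b c : 𝓞 K} (hb : b - 1 ∈ 𝔫) (hc : c - 1 ∈ 𝔫) :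
    b * c - 1 ∈ 𝔫 := by
  have h : b * c - 1 = b * (c - 1) + (b - 1) := by ring
  rw [h]
  exact 𝔫.add_mem (𝔫.mul_mem_left b hc) hb

theorem sub_mem_pow {𝔫 : Ideal (𝓞 K)} {b : 𝓞 K} (hb : b - 1 ∈ 𝔫) (k : ℕ) :
    b ^ k - 1 ∈ 𝔫 := by
  induction k with
  | zero => simp
  | succ k ih =>
    rw [pow_succ]
    exact sub_mem_mul ih hb

theorem span_gen [Fact p.Prime] (𝔫 : Ideal (𝓞 K)) (H : Set (Ideal (𝓞 K)))
    (v : Ideal (𝓞 K) →₀ ZMod p) (hv : v ∈ Submodule.span (ZMod p) (Gen p 𝔫 H)) :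
    ∃ b : 𝓞 K, b ≠ 0 ∧ b - 1 ∈ 𝔫 ∧ ∀ P ∉ H, v P = dv p (Ideal.span {b}) P := by
  have hone : dv p (Ideal.span {(1 : 𝓞 K)}) = 0 := by
    rw [Ideal.span_singleton_one, ← Ideal.one_eq_top, dv_one]
  induction hv using Submodule.span_induction with
  | mem x hx =>
    rcases hx with ⟨P₀, hP₀, rfl⟩ | ⟨β, h1, h2, rfl⟩
    · refine ⟨1, one_ne_zero, by simp, ?_⟩
      intro P hP
      have hne : P₀ ≠ P := by
        intro h
        rw [h] at hP₀
        exact hP hP₀
      show Finsupp.single P₀ (1 : ZMod p) P = _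
      rw [hone, Finsupp.single_apply, if_neg hne]
      rfl
    · exact ⟨β, h1, h2, fun P _ => rfl⟩
  | zero =>
    refine ⟨1, one_ne_zero, by simp, ?_⟩
    intro P _
    rw [hone]
  | add x y _ _ hx hy =>
    obtain ⟨b, h1, h2, h3⟩ := hx
    obtain ⟨c, k1, k2, k3⟩ := hy
    refine ⟨b * c, mul_ne_zero h1 k1, sub_mem_mul h2 k2, ?_⟩
    intro P hP
    rw [← Ideal.span_singleton_mul_span_singleton,
      dv_mul p (by simpa using h1) (by simpa using k1),
      Finsupp.add_apply, Finsupp.add_apply, h3 P hP, k3 P hP]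
  | smul a x _ hx =>
    obtain ⟨b, h1, h2, h3⟩ := hx
    refine ⟨b ^ a.val, pow_ne_zero _ h1, sub_mem_pow h2 _, ?_⟩
    intro P hP
    rw [dv_pow p h1, Finsupp.smul_apply, Finsupp.smul_apply, h3 P hP, nsmul_eq_mul,
      ZMod.natCast_zmod_val, smul_eq_mul]

end div

section main

variable {K M : Type} [Field K] [NumberField K] [Field M] [NumberField M] [Algebra K M]
  [IsGalois K M]

open Classical in
theorem tail (h1 : S_PSM) {D : Set (HeightOneSpectrum (𝓞 K))} {C κ : ℝ}
    (hD : ∀ s : ℝ, 1 < s → s ≤ 2 → κ * Real.log (1 / (s - 1)) - C ≤ pz D s)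
    (hfree : ∀ r ∈ D, ∃ w : HeightOneSpectrum (𝓞 M), bel K w = r ∧ FreeP K w)
    (hm : 4 / 3 ≤ (finrank K M : ℝ) * κ) : False := by
  obtain ⟨CK, hK⟩ := h1 K
  obtain ⟨CM, hM⟩ := h1 M
  set m : ℝ := (finrank K M : ℝ) with hmdef
  have hm0 : 0 ≤ m := Nat.cast_nonneg _
  -- the value of `ℓ`
  obtain ⟨l, hl0, hlK, hlM, hl⟩ : ∃ l : ℝ, 0 ≤ l ∧ CK < l ∧ CM < l ∧
      l + CM < m * (κ * l - C) := by
    have hC0 : 0 ≤ m * |C| := mul_nonneg hm0 (abs_nonneg C)
    have hC1 : m * C ≤ m * |C| := mul_le_mul_of_nonneg_left (le_abs_self C) hm0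
    refine ⟨3 * (m * |C| + |CM| + 1) + |CK| + |CM|, ?_, ?_, ?_, ?_⟩
    · have := abs_nonneg CM
      have := abs_nonneg CK
      linarith
    · have := abs_nonneg CM
      have := le_abs_self CK
      linarith
    · have := abs_nonneg CK
      have := le_abs_self CM
      have := abs_nonneg CM
      linarith
    · have h2 := abs_nonneg CM
      have h3 := abs_nonneg CK
      have h4 := le_abs_self CM
      set l := 3 * (m * |C| + |CM| + 1) + |CK| + |CM| with hldef
      have hl0 : 0 ≤ l := by rw [hldef]; linarith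
      have h5 : 4 / 3 * l ≤ m * κ * l := mul_le_mul_of_nonneg_right hm hl0
      have h6 : m * (κ * l - C) = m * κ * l - m * C := by ring
      rw [h6]
      have h7 : l + CM < 4 / 3 * l - m * |C| := by
        rw [hldef]
        linarith
      linarith
  have hs1 : (1 : ℝ) < 1 + Real.exp (-l) := by linarith [Real.exp_pos (-l)]
  have hs2 : 1 + Real.exp (-l) ≤ 2 := by
    have : Real.exp (-l) ≤ 1 := by
      rw [Real.exp_le_one_iff]
      linarith
    linarith
  have hlog : Real.log (1 / (1 + Real.exp (-l) - 1)) = l := by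
    rw [add_sub_cancel_left, one_div, ← Real.exp_neg, neg_neg, Real.log_exp]
  set s : ℝ := 1 + Real.exp (-l) with hs
  have hD' := hD s hs1 hs2
  have hK' := hK s hs1 hs2
  have hM' := hM s hs1 hs2
  rw [hlog] at hD' hK' hM'
  set f : HeightOneSpectrum (𝓞 K) → ℝ := fun v => (Ideal.absNorm v.asIdeal : ℝ) ^ (-s) with hf
  set F : HeightOneSpectrum (𝓞 M) → ℝ := fun v => (Ideal.absNorm v.asIdeal : ℝ) ^ (-s) with hF
  have hf0 : ∀ v, 0 ≤ f v := fun v => Real.rpow_nonneg (Nat.cast_nonneg _) _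
  have hF0 : ∀ v, 0 ≤ F v := fun v => Real.rpow_nonneg (Nat.cast_nonneg _) _
  have eM : pz (F := M) Set.univ s = ∑' v, F v := tsum_univ F
  rw [eM] at hM'
  have sM : Summable F := by
    by_contra h
    rw [tsum_eq_zero_of_not_summable h, zero_sub, abs_neg] at hM'
    have := le_abs_self l
    linarith
  -- the injection
  have hW : ∀ r : D, ∃ w : HeightOneSpectrum (𝓞 M), bel K w = r.1 ∧ FreeP K w :=
    fun r => hfree r.1 r.2
  choose W hW1 hW2 using hW
  let i : D × (M ≃ₐ[K] M) → HeightOneSpectrum (𝓞 M) := fun p => gw p.2 (W p.1)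
  have hbel : ∀ p : D × (M ≃ₐ[K] M), bel K (i p) = p.1.1 := by
    intro p
    rw [← hW1 p.1]
    exact bel_smul p.2 (W p.1) (i p) rfl
  have hi : Function.Injective i := by
    rintro ⟨r, g⟩ ⟨r', g'⟩ h
    have h1 : r = r' := by
      apply Subtype.ext
      have h2 := congrArg (bel K) h
      rw [hbel, hbel] at h2
      exact h2
    subst h1
    have h3 : g = g' := gw_inj (W r) (hW2 r) h
    rw [h3]
  have hFi : ∀ p, F (i p) = f p.1.1 := by
    intro p
    have h2 : Ideal.absNorm (i p).asIdeal = Ideal.absNorm (bel K (i p)).asIdeal :=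
      absNorm_free (i p) (free_gw p.2 (W p.1) (hW2 p.1))
    rw [hbel p] at h2
    rw [hF, hf]
    simp only
    rw [h2]
  have hle := tsum_comp_le_tsum_of_inj sM hF0 hi
  have sI : Summable (F ∘ i) := sM.comp_injective hi
  have hprod : ∑' p, (F ∘ i) p = m * pz D s := by
    have h5 : (F ∘ i) = fun p : D × (M ≃ₐ[K] M) => f p.1.1 := funext hFi
    rw [h5] at sI ⊢
    rw [sI.tsum_prod' (fun r => (hasSum_fintype _).summable)]
    have h6 : ∀ r : D, ∑' _g : (M ≃ₐ[K] M), f r.1 = m * f r.1 := by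
      intro r
      rw [tsum_fintype, Finset.sum_const, Finset.card_univ, nsmul_eq_mul,
        ← Nat.card_eq_fintype_card, IsGalois.card_aut_eq_finrank]
    have h7 : (fun r : D => ∑' g : (M ≃ₐ[K] M), f (r, g).1.1) =
        fun r : D => m * f r.1 := by
      funext r
      exact h6 r
    rw [h7, tsum_mul_left]
    rfl
  rw [hprod] at hle
  have h11 : m * (κ * l - C) ≤ m * pz D s := mul_le_mul_of_nonneg_left hD' hm0
  have h12 := (abs_le.1 hM').2
  linarith

/-- The harmless primes and the primes which are not prime to `𝔫`. -/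
def Hm (𝔫 : Ideal (𝓞 K)) (M : Type) [Field M] [NumberField M] [Algebra K M] :
    Set (Ideal (𝓞 K)) :=
  {P | ∃ r : HeightOneSpectrum (𝓞 K), P = r.asIdeal ∧ (r.asIdeal ⊔ 𝔫 ≠ ⊤ ∨
    ∀ w : HeightOneSpectrum (𝓞 M), bel K w = r → ¬ FreeP K w)}

end main

theorem e_bex (h1 : Pool.Agent.Helper38.RSP.SP_HLF) (h2 : Pool.Agent.Helper38.RS.S_PSM) :
    Pool.Agent.Helper42.RD.E_BEX := by
  intro p hp K M _ _ _ _ _ _ _ hgt hp3 𝔫 h𝔫 β hβ
  have hp' : p.Prime := hp.out
  -- the claim
  have hmem : -(dv p (Ideal.span {β})) ∈ Submodule.span (ZMod p) (Gen p 𝔫 (Hm 𝔫 M)) := by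
    by_contra hnot
    have hnot' : dv p (Ideal.span {β}) ∉ Submodule.span (ZMod p) (Gen p 𝔫 (Hm 𝔫 M)) :=
      fun h => hnot (Submodule.neg_mem _ h)
    obtain ⟨φ, hφ1, hφ2⟩ := Submodule.exists_le_ker_of_notMem hnot'
    have hgen : ∀ x ∈ Gen p 𝔫 (Hm 𝔫 M), φ x = 0 := by
      intro x hx
      exact LinearMap.mem_ker.1 (hφ2 (Submodule.subset_span hx))
    -- some prime factor of `β`
    obtain ⟨P, hP, hφP⟩ : ∃ P ∈ normalizedFactors (Ideal.span {β}),
        φ (Finsupp.single P 1) ≠ 0 := by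
      by_contra hno
      push Not at hno
      apply hφ1
      unfold dv
      rw [map_multiset_sum, Multiset.map_map]
      apply Multiset.sum_eq_zero
      intro x hx
      rw [Multiset.mem_map] at hx
      obtain ⟨P, hP, rfl⟩ := hx
      exact hno P hP
    have hβ' : Ideal.span {β} ≠ 0 := by simpa using hβ
    have hPprime := prime_of_normalized_factor P hP
    have hPne : P ≠ ⊥ := by
      have := hPprime.ne_zero
      simpa using this
    let v : HeightOneSpectrum (𝓞 K) := ⟨P, Ideal.isPrime_of_prime hPprime, hPne⟩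
    have hPcop : P ⊔ 𝔫 = ⊤ := by
      by_contra hc
      exact hφP (hgen _ (Or.inl ⟨P, ⟨v, rfl, Or.inl hc⟩, rfl⟩))
    have hpsi : IsPsi p 𝔫 (fun I => φ (dv p I)) := by
      refine ⟨h𝔫, ?_, ?_, ?_⟩
      · intro I J hI hJ _ _
        show φ (dv p (I * J)) = φ (dv p I) + φ (dv p J)
        rw [dv_mul p hI hJ, map_add]
      · intro α hα hα'
        exact hgen _ (Or.inr ⟨α, hα, hα', rfl⟩)
      · refine ⟨P, hPne, hPcop, ?_⟩
        show φ (dv p P) ≠ 0
        have h3 := dv_prime p v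
        have h4 : v.asIdeal = P := rfl
        rw [h4] at h3
        rw [h3]
        exact hφP
    obtain ⟨C, hC⟩ := h1 p K 𝔫 _ hpsi
    refine tail (K := K) (M := M) h2 (κ := 1 - 1 / (p : ℝ)) hC ?_ ?_
    · intro r hr
      by_contra hno
      push Not at hno
      obtain ⟨hr1, hr2⟩ := hr
      apply hr2
      show φ (dv p r.asIdeal) = 0
      rw [dv_prime]
      exact hgen _ (Or.inl ⟨r.asIdeal, ⟨r, rfl, Or.inr hno⟩, rfl⟩)
    · rcases eq_or_ne p 2 with h | h
      · have h3 : (3 : ℝ) ≤ finrank K M := by exact_mod_cast hp3 h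
        rw [h]
        push_cast
        linarith
      · have h3 : (2 : ℝ) ≤ finrank K M := by exact_mod_cast hgt
        have h4 : (3 : ℝ) ≤ p := by
          have : 3 ≤ p := by
            have := hp'.two_le
            omega
          exact_mod_cast this
        have h5 : 1 / (p : ℝ) ≤ 1 / 3 := one_div_le_one_div_of_le (by norm_num) h4
        have h6 : (2 : ℝ) / 3 ≤ 1 - 1 / (p : ℝ) := by linarith
        calc (4 : ℝ) / 3 = 2 * (2 / 3) := by norm_num
          _ ≤ (finrank K M : ℝ) * (1 - 1 / (p : ℝ)) :=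
            mul_le_mul h3 h6 (by norm_num) (by linarith)
  obtain ⟨b, hb0, hbn, hb⟩ := span_gen p 𝔫 (Hm 𝔫 M) _ hmem
  refine ⟨b, hb0, hbn, ?_⟩
  intro W Q hWQ hW hQ
  have hbel : bel K W = Q := HeightOneSpectrum.ext hWQ
  have hQH : Q.asIdeal ∉ Hm 𝔫 M := by
    rintro ⟨r, h3, h4⟩
    have h5 : r = Q := HeightOneSpectrum.ext h3.symm
    subst h5
    rcases h4 with h4 | h4
    · exact h4 hQ
    · exact h4 W hbel hW
  have h3 := hb _ hQH
  have h4 : dv p (Ideal.span {β * b}) Q.asIdeal = 0 := by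
    rw [← Ideal.span_singleton_mul_span_singleton,
      dv_mul p (by simpa using hβ) (by simpa using hb0), Finsupp.add_apply, ← h3,
      Finsupp.neg_apply, add_neg_cancel]
  rw [dv_apply, ZMod.natCast_eq_zero_iff] at h4
  have h5 : ordv Q ((β * b : 𝓞 K) : K) =
      ((normalizedFactors (Ideal.span {β * b})).count Q.asIdeal : ℤ) := by
    unfold ordv
    have h6 := val_count Q (mul_ne_zero hβ hb0)
    have h7 : ((β * b : 𝓞 K) : K) = algebraMap (𝓞 K) K (β * b) := rfl
    rw [h7, h6, WithZero.log_exp, neg_neg]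
  rw [h5]
  exact Int.natCast_dvd_natCast.mpr h4

end Pool.Agent.Helper60.RD
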